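import Mathlib
import Pool.Agent.H.MP_6f5b46_pr.C

set_option autoImplicit false

namespace Pool.Agent.Results.MP_6f5b46_pr.No

open Finset Filter Topology MeasureTheory ProbabilityTheory Function

noncomputable section

/-- the sites of the three-dimensional lattice -/
abbrev X := (ℤ × ℤ) × ℤ

/-- configurations; true = filled, false = empty -/
abbrev Ω := X → Bool

/-- flip one site -/
def flip (η : Ω) (x : X) : Ω := update η x (!η x)

/-- the constraint at x: all sites of x + N are empty -/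
def ok (N : Finset X) (η : Ω) (x : X) : Prop := ∀ y ∈ N, η (x + y) = false

open Classical in
/-- the generator -/
def gen (N : Finset X) (p : ℝ) (f : Ω → ℝ) (η : Ω) : ℝ :=
  ∑' x, (if ok N η x then 1 else 0) * (if η x then 1 - p else p) * (f (flip η x) - f η)

/-- local functions -/
def IsLocal (f : Ω → ℝ) : Prop := ∃ Λ : Finset X, DependsOn f (Λ : Set X)

/-- the graph of the generator of a semigroup -/
def graph (P : ℝ → C(Ω, ℝ) →L[ℝ] C(Ω, ℝ)) : Set (C(Ω, ℝ) × C(Ω, ℝ)) :=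
  {a | HasDerivWithinAt (fun t => P t a.1) a.2 (Set.Ici 0) 0}

/-- the graph of the generator on local functions -/
def core (N : Finset X) (p : ℝ) : Set (C(Ω, ℝ) × C(Ω, ℝ)) := {a | IsLocal a.1 ∧ a.2 = gen N p a.1}

/-- the strongly continuous semigroup generated by the closure of the generator -/
def IsSemigroup (N : Finset X) (p : ℝ) (P : ℝ → C(Ω, ℝ) →L[ℝ] C(Ω, ℝ)) : Prop :=
  P 0 = 1 ∧ (∀ s t, 0 ≤ s → 0 ≤ t → P (s + t) = P s * P t) ∧ (∀ g, ContinuousOn (fun t => P t g) (Set.Ici 0)) ∧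
    graph P = closure (core N p)

/-- stationary measures -/
def Stationary (N : Finset X) (p : ℝ) (μ : Measure Ω) : Prop :=
  (∀ f, IsLocal f → ∫ η, gen N p f η ∂μ = 0) ∧
    ∀ P, IsSemigroup N p P → ∀ t, 0 ≤ t → ∀ g : C(Ω, ℝ), ∫ η, P t g η ∂μ = ∫ η, g η ∂μ

/-- the box -/
def box (L : ℕ) : Finset X := (Icc (-L : ℤ) L ×ˢ Icc (-L : ℤ) L) ×ˢ Icc (-L : ℤ) L

open Classical in
/-- one bootstrap step on the sites of Λ -/
def step (N : Finset X) (Λ : Set X) (η : Ω) (x : X) : Bool := if x ∈ Λ ∧ ok N η x then false else η x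

/-- the conditioning event -/
def cnd (N : Finset X) (L : ℕ) (β : Ω) : Set Ω :=
  {η | ∀ x ∈ box L, β x = true ↔ ∀ n, (step N (box L))^[n] (fun y => if y ∈ box L then η y else true) x = true}

/-- the product Bernoulli measure -/
def bern (p : unitInterval) : Measure Ω := Measure.infinitePi fun _ => bernoulliMeasure true false p

/-- admissible stable configurations -/
def Adm (N : Finset X) (p : unitInterval) (β : Ω) : Prop :=
  step N Set.univ β = β ∧ (∀ᶠ L in atTop, 0 < bern p (cnd N L β)) ∧ ∀ E : Set Ω, IsLocal (E.indicator 1) →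
    ∃ l, Tendsto (fun L => (bern p)[|cnd N L β].real E) atTop (𝓝 l)

/-- the mean of f under the limit of the conditioned measures -/
def lm (N : Finset X) (p : unitInterval) (β : Ω) (f : Ω → ℝ) : ℝ :=
  limUnder atTop fun L => ∫ η, f η ∂(bern p)[|cnd N L β]

theorem result : ∃ (N : Finset X) (p : unitInterval) (μ : Measure Ω), 0 ∉ N ∧ N.Nonempty ∧ 0 < p ∧ p < 1 ∧
    IsProbabilityMeasure μ ∧ Stationary N p μ ∧ ¬∃ ν : Measure Ω, IsProbabilityMeasure ν ∧ (∀ᵐ β ∂ν, Adm N p β) ∧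
      ∀ f, IsLocal f → AEStronglyMeasurable (fun β => lm N p β f) ν ∧ ∫ η, f η ∂μ = ∫ β, lm N p β f ∂ν := by
  obtain ⟨p, μ, a, b, c, d, e⟩ := Pool.Agent.H.MP_6f5b46_pr.main
  exact ⟨Pool.Agent.H.MP_6f5b46_pr.N, p, μ, by decide, by decide, a, b, c,
    ⟨d, fun P h => Pool.Agent.H.MP_6f5b46_pr.semi d P h.1 h.2.1 h.2.2.1 h.2.2.2⟩, e⟩

end

end Pool.Agent.Results.MP_6f5b46_pr.No
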